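import Pool.Agent.helper37.P2.SpecD

set_option autoImplicit false

open scoped ContDiff Topology
open MeasureTheory Filter Set Metric MvPolynomial Pool.Agent.helper37.QA

namespace Pool.Agent.P2

theorem BK2_eta_nonneg (z : ℂ) : 0 ≤ eta z := Real.smoothTransition.nonneg _

theorem BK2_eta_le (z : ℂ) : eta z ≤ 1 := Real.smoothTransition.le_one _

theorem BK2_eta_cd : ContDiff ℝ 1 eta := by
  have h0 : ContDiff ℝ 1 (fun z : ℂ => Complex.normSq z) := by
    simp only [Complex.normSq_apply]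
    exact ((Complex.reCLM.contDiff.mul Complex.reCLM.contDiff).add
      (Complex.imCLM.contDiff.mul Complex.imCLM.contDiff))
  have h : ContDiff ℝ 1 (fun z : ℂ => 5 - 8 * Complex.normSq z) :=
    contDiff_const.sub (contDiff_const.mul h0)
  exact (Real.smoothTransition.contDiff).comp h

theorem BK2_eta_zero (z : ℂ) (h : 5 ≤ 8 * Complex.normSq z) : eta z = 0 :=
  Real.smoothTransition.zero_of_nonpos (by linarith)

theorem BK2_lip : ∃ Cη : ℝ, 0 ≤ Cη ∧ ∀ z w : ℂ, |eta z - eta w| ≤ Cη * ‖z - w‖ := by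
  have hc : HasCompactSupport eta := by
    refine HasCompactSupport.intro (isCompact_closedBall (0 : ℂ) 1) (fun z hz => ?_)
    apply BK2_eta_zero
    rw [mem_closedBall_zero_iff, not_le] at hz
    rw [Complex.normSq_eq_norm_sq]
    nlinarith
  obtain ⟨C, hC⟩ := BK2_eta_cd.lipschitzWith_of_hasCompactSupport hc one_ne_zero
  refine ⟨C, C.2, fun z w => ?_⟩
  have h := hC.dist_le_mul z w
  rwa [Real.dist_eq, dist_eq_norm] at h

theorem BK2_inj {d : ℕ} {f : Endo 2 d} {Z : ℂ → E3} {k : ℕ} {ι : Fin 2} {c : ℂ} {κ : ℝ}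
    {g γ : ℂ → ℂ} (hκ : 0 < κ) (h : Isl f Z k ι c κ g γ) : InjOn g (ball 0 1) := by
  intro ξ hξ ξ' hξ' he
  obtain ⟨a, ha, h1⟩ := h.2.2.2 ξ hξ
  obtain ⟨a', ha', h2⟩ := h.2.2.2 ξ' hξ'
  have h3 : a • gp ι c κ γ (ξ, 0) = a' • gp ι c κ γ (ξ', 0) := by rw [← h1, ← h2, he]
  have hκ' : (κ : ℂ) ≠ 0 := by exact_mod_cast hκ.ne'
  have h4 : a = a' ∧ a * (c + κ * ξ) = a' * (c + κ * ξ') := by
    unfold gp cht at h3
    split_ifs at h3
    · have e0 := congrFun h3 0
      have e1 := congrFun h3 1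
      simp at e0 e1
      exact ⟨e0, e1⟩
    · have e0 := congrFun h3 0
      have e1 := congrFun h3 1
      simp at e0 e1
      exact ⟨e1, e0⟩
  obtain ⟨h5, h6⟩ := h4
  subst h5
  have h7 := mul_left_cancel₀ ha h6
  exact mul_left_cancel₀ hκ' (add_left_cancel h7)

theorem BK2_tau_nonneg {d : ℕ} (f : Endo 2 d) (N : ℕ) (Z : ℂ → E3) (z : ℂ) :
    0 ≤ tau f N Z z := by
  unfold tau
  apply div_nonneg _ (by positivity)
  apply div_nonneg _ (by positivity)
  exact mul_nonneg (by norm_num) (Complex.normSq_nonneg _)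

theorem BK2_null {d : ℕ} (f : Endo 2 d) (N : ℕ) (Z : ℂ → E3) : mz f N Z {z | eta z = 0} = 0 := by
  have hm : MeasurableSet {z : ℂ | eta z = 0} :=
    (isClosed_eq BK2_eta_cd.continuous continuous_const).measurableSet
  unfold mz
  rw [withDensity_apply _ hm]
  rw [setLIntegral_congr_fun hm (g := fun _ => 0)]
  · simp
  · intro z hz
    have hz' : eta z = 0 := hz
    simp [hz']

theorem BK2_max (g : ℂ → ℂ) (hg : DifferentiableOn ℂ g (ball 0 1)) :
    ∃ D : ℝ, (0 ≤ D ∧ ∃ ξ ∈ closedBall (0 : ℂ) (1 / 2), ∃ ξ' ∈ closedBall (0 : ℂ) (1 / 2),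
      D ≤ ‖g ξ - g ξ'‖) ∧ ∀ ξ ∈ closedBall (0 : ℂ) (1 / 32), ‖g ξ - g 0‖ ≤ D := by
  have hc : ContinuousOn (fun ξ => ‖g ξ - g 0‖) (closedBall (0 : ℂ) (1 / 32)) := by
    refine ContinuousOn.norm (ContinuousOn.sub (hg.continuousOn.mono ?_) continuousOn_const)
    exact closedBall_subset_ball (by norm_num)
  obtain ⟨ξ₀, h0, hmax⟩ := (isCompact_closedBall (0 : ℂ) (1 / 32)).exists_isMaxOn
    ⟨0, mem_closedBall_self (by norm_num)⟩ hc
  refine ⟨‖g ξ₀ - g 0‖, ⟨norm_nonneg _, ξ₀, ?_, 0, mem_closedBall_self (by norm_num), le_rfl⟩, ?_⟩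
  · exact closedBall_subset_closedBall (by norm_num) h0
  · intro ξ hξ
    exact hmax hξ

theorem BK2_sqrt (D : ℝ) (hD : 0 < D) : D⁻¹ * √D = D ^ (-(1 / 2) : ℝ) := by
  rw [Real.rpow_neg hD.le, ← Real.sqrt_eq_rpow]
  have h1 : √D * √D = D := Real.mul_self_sqrt hD.le
  have h2 : 0 < √D := Real.sqrt_pos.mpr hD
  have h3 : D⁻¹ = (√D)⁻¹ * (√D)⁻¹ := by rw [← mul_inv, h1]
  rw [h3, mul_assoc, inv_mul_cancel₀ h2.ne', mul_one]

/-- mass of the image of the small disc -/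
theorem BK2_one {d : ℕ} (f : Endo 2 d) (N : ℕ) (Z : ℂ → E3) (g : ℂ → ℂ) (m C3 K : ℝ)
    (hm : 0 < m) (hK : 0 ≤ K) (hg : DifferentiableOn ℂ g (ball 0 1))
    (hmass : ∫⁻ z in g '' closedBall (0 : ℂ) (1 / 32), ENNReal.ofReal (tau f N Z z) ≤
      ENNReal.ofReal C3) (hmm : mass f N Z = m)
    (heta : ∀ z ∈ g '' closedBall (0 : ℂ) (1 / 32), eta z ^ 2 ≤ K) :
    mz f N Z (g '' closedBall (0 : ℂ) (1 / 32)) ≤ ENNReal.ofReal (K / m * C3) := by
  have hcomp : IsCompact (g '' closedBall (0 : ℂ) (1 / 32)) :=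
    (isCompact_closedBall (0 : ℂ) (1 / 32)).image_of_continuousOn
      (hg.continuousOn.mono (closedBall_subset_ball (by norm_num)))
  have hms := hcomp.measurableSet
  unfold mz
  rw [withDensity_apply _ hms, hmm]
  have hKm : 0 ≤ K / m := div_nonneg hK hm.le
  calc ∫⁻ z in g '' closedBall (0 : ℂ) (1 / 32), ENNReal.ofReal (eta z ^ 2 * tau f N Z z / m)
      ≤ ∫⁻ z in g '' closedBall (0 : ℂ) (1 / 32),
          ENNReal.ofReal (K / m) * ENNReal.ofReal (tau f N Z z) := by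
        apply setLIntegral_mono' hms
        intro z hz
        rw [← ENNReal.ofReal_mul hKm]
        apply ENNReal.ofReal_le_ofReal
        have h1 := heta z hz
        have h2 := BK2_tau_nonneg f N Z z
        rw [div_mul_eq_mul_div]
        apply div_le_div_of_nonneg_right _ hm.le
        exact mul_le_mul_of_nonneg_right h1 h2
    _ = ENNReal.ofReal (K / m) * ∫⁻ z in g '' closedBall (0 : ℂ) (1 / 32),
          ENNReal.ofReal (tau f N Z z) := lintegral_const_mul' _ _ ENNReal.ofReal_ne_top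
    _ ≤ ENNReal.ofReal (K / m) * ENNReal.ofReal C3 := by gcongr
    _ = ENNReal.ofReal (K / m * C3) := (ENNReal.ofReal_mul hKm).symm

open Classical in
theorem BK2 (hISM : ISM_stmt) (hDIA : DIA_stmt) : BK2_stmt := by
  intro d f U hd hU κ Kb C1 hκ hκ1 hKb hC1
  obtain ⟨C3, hC3, hI⟩ := hISM d f U hd hU
  obtain ⟨CD, hCD, hDI⟩ := hDIA
  obtain ⟨Cη, hCη, hlip⟩ := BK2_lip
  refine ⟨C3 * (1 + 2 * Cη * √(CD * C1)), by positivity, ?_⟩
  intro N k Z ι c hSD n A hF 𝒬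
  obtain ⟨hkN, hDsc, hm1, hub, hc2⟩ := hSD
  have hm : 0 < mass f N Z := by linarith
  have hd0 : (0 : ℝ) < (d : ℝ) ^ k := by
    have : 0 < d := by omega
    positivity
  set D := (d : ℝ) ^ k * mass f N Z with hDdef
  have hD : 0 < D := mul_pos hd0 hm
  have hIsl : ∀ a, Isl f Z k ι c κ (A a).g (A a).γ := fun a => (hF.isl a).2.2.1
  choose Dm hDm1 hDm2 using fun a => BK2_max (A a).g (hIsl a).1
  obtain ⟨-, hsum⟩ := hDI n (fun a => (A a).g) Dm
    (fun a => ⟨(hIsl a).1, BK2_inj hκ (hIsl a), (hIsl a).2.1⟩) hF.dis hDm1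
  have hsum' : ∑ a, Dm a ≤ √(CD * C1) * √D := by
    refine le_trans hsum ?_
    rw [← Real.sqrt_mul (by positivity)]
    apply Real.sqrt_le_sqrt
    calc CD * (n : ℝ) ≤ CD * (C1 * D) := mul_le_mul_of_nonneg_left hF.card hCD.le
      _ = CD * C1 * D := by ring
  -- covering
  have hcov : Pt f Z k ι c κ (fun γ _ => 𝒬 γ) ⊆ {z | eta z = 0} ∪
      ⋃ a ∈ Finset.univ.filter (fun a => 𝒬 (A a).γ), (A a).g '' closedBall (0 : ℂ) (1 / 32) := by
    rintro z ⟨g, γ, ξ, hNI, hξ, hgz, hQ⟩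
    by_cases he : eta z = 0
    · exact Or.inl he
    · right
      have hξ' : ξ ∈ closedBall (0 : ℂ) (1 / 32) := mem_closedBall_zero_iff.mpr hξ
      obtain ⟨a, hga, hγa⟩ := hF.all g γ hNI ⟨ξ, hξ', by rw [hgz]; exact he⟩
      rw [mem_iUnion₂]
      refine ⟨a, ?_, ξ, hξ', ?_⟩
      · rw [Finset.mem_filter]
        exact ⟨Finset.mem_univ _, hγa ▸ hQ⟩
      · rw [← hga, hgz]
  set K : Fin n → ℝ := fun a => eta ((A a).g 0) ^ 2 + 2 * Cη * Dm a with hKdef
  have hDm0 : ∀ a, 0 ≤ Dm a := fun a => (hDm1 a).1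
  have hK0 : ∀ a, 0 ≤ K a := fun a => by
    have := hDm0 a
    rw [hKdef]
    positivity
  have hone : ∀ a, mz f N Z ((A a).g '' closedBall (0 : ℂ) (1 / 32)) ≤
      ENNReal.ofReal (K a / mass f N Z * (C3 / (d : ℝ) ^ k)) := by
    intro a
    obtain ⟨i1, i2, i3, -⟩ := hI N k Z ι c κ (A a).g (A a).γ hκ hκ1 hkN hDsc hc2 (hIsl a)
    apply BK2_one f N Z (A a).g (mass f N Z) (C3 / (d : ℝ) ^ k) (K a) hm (hK0 a) (hIsl a).1
    · rw [i3 _ isClosed_closedBall.measurableSet (closedBall_subset_ball (by norm_num))]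
      calc ∫⁻ ξ in closedBall (0 : ℂ) (1 / 32),
            ENNReal.ofReal (gt f (N - k) ι c κ (A a).γ (ξ, 0) / (d : ℝ) ^ k)
          = ∫⁻ ξ in closedBall (0 : ℂ) (1 / 32),
            ENNReal.ofReal (gt f (N - k) ι c κ (A a).γ (ξ, 0)) * ENNReal.ofReal ((d : ℝ) ^ k)⁻¹ := by
            apply lintegral_congr
            intro ξ
            rw [div_eq_mul_inv, ENNReal.ofReal_mul' (by positivity)]
        _ = (∫⁻ ξ in closedBall (0 : ℂ) (1 / 32),
            ENNReal.ofReal (gt f (N - k) ι c κ (A a).γ (ξ, 0))) * ENNReal.ofReal ((d : ℝ) ^ k)⁻¹ :=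
            lintegral_mul_const' _ _ ENNReal.ofReal_ne_top
        _ ≤ (∫⁻ ξ in closedBall (0 : ℂ) (3 / 4),
            ENNReal.ofReal (gt f (N - k) ι c κ (A a).γ (ξ, 0))) * ENNReal.ofReal ((d : ℝ) ^ k)⁻¹ :=
            mul_le_mul' (lintegral_mono_set (closedBall_subset_closedBall (by norm_num))) le_rfl
        _ ≤ ENNReal.ofReal C3 * ENNReal.ofReal ((d : ℝ) ^ k)⁻¹ := by gcongr
        _ = ENNReal.ofReal (C3 / (d : ℝ) ^ k) := by
            rw [← ENNReal.ofReal_mul hC3.le, div_eq_mul_inv]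
    · rfl
    · rintro z ⟨ξ, hξ, rfl⟩
      have h1 := hlip ((A a).g ξ) ((A a).g 0)
      have h2 := hDm2 a ξ hξ
      have h3 := BK2_eta_nonneg ((A a).g ξ)
      have h4 := BK2_eta_nonneg ((A a).g 0)
      have h5 := BK2_eta_le ((A a).g ξ)
      have h6 := BK2_eta_le ((A a).g 0)
      have h7 : eta ((A a).g ξ) - eta ((A a).g 0) ≤ Cη * Dm a :=
        le_trans (le_abs_self _) (le_trans h1 (mul_le_mul_of_nonneg_left h2 hCη))
      have h8 : 0 ≤ Cη * Dm a := mul_nonneg hCη (hDm0 a)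
      have h9 : (eta ((A a).g ξ) - eta ((A a).g 0)) * (eta ((A a).g ξ) + eta ((A a).g 0)) ≤
          Cη * Dm a * (eta ((A a).g ξ) + eta ((A a).g 0)) :=
        mul_le_mul_of_nonneg_right h7 (by linarith)
      have h10 : Cη * Dm a * (eta ((A a).g ξ) + eta ((A a).g 0)) ≤ Cη * Dm a * 2 :=
        mul_le_mul_of_nonneg_left (by linarith) h8
      rw [hKdef]
      nlinarith
  calc mz f N Z (Pt f Z k ι c κ (fun γ _ => 𝒬 γ))
      ≤ mz f N Z ({z | eta z = 0} ∪
        ⋃ a ∈ Finset.univ.filter (fun a => 𝒬 (A a).γ), (A a).g '' closedBall (0 : ℂ) (1 / 32)) :=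
        measure_mono hcov
    _ ≤ mz f N Z {z | eta z = 0} + mz f N Z (⋃ a ∈ Finset.univ.filter (fun a => 𝒬 (A a).γ),
        (A a).g '' closedBall (0 : ℂ) (1 / 32)) := measure_union_le _ _
    _ = mz f N Z (⋃ a ∈ Finset.univ.filter (fun a => 𝒬 (A a).γ),
        (A a).g '' closedBall (0 : ℂ) (1 / 32)) := by rw [BK2_null, zero_add]
    _ ≤ ∑ a ∈ Finset.univ.filter (fun a => 𝒬 (A a).γ),
        mz f N Z ((A a).g '' closedBall (0 : ℂ) (1 / 32)) := measure_biUnion_finset_le _ _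
    _ ≤ ∑ a ∈ Finset.univ.filter (fun a => 𝒬 (A a).γ),
        ENNReal.ofReal (K a / mass f N Z * (C3 / (d : ℝ) ^ k)) :=
        Finset.sum_le_sum fun a _ => hone a
    _ = ENNReal.ofReal (∑ a ∈ Finset.univ.filter (fun a => 𝒬 (A a).γ),
        K a / mass f N Z * (C3 / (d : ℝ) ^ k)) := by
        rw [ENNReal.ofReal_sum_of_nonneg]
        intro a _
        have := hK0 a
        positivity
    _ ≤ _ := by
        apply ENNReal.ofReal_le_ofReal
        have e1 : ∑ a ∈ Finset.univ.filter (fun a => 𝒬 (A a).γ),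
            K a / mass f N Z * (C3 / (d : ℝ) ^ k) =
            C3 * D⁻¹ * (∑ a, if 𝒬 (A a).γ then eta ((A a).g 0) ^ 2 else 0) +
            C3 * D⁻¹ * (2 * Cη * ∑ a ∈ Finset.univ.filter (fun a => 𝒬 (A a).γ), Dm a) := by
          rw [← Finset.sum_filter, Finset.mul_sum, Finset.mul_sum, Finset.mul_sum,
            ← Finset.sum_add_distrib]
          apply Finset.sum_congr rfl
          intro a _
          rw [hKdef, hDdef]
          field_simp
        have e2 : ∑ a ∈ Finset.univ.filter (fun a => 𝒬 (A a).γ), Dm a ≤ √(CD * C1) * √D :=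
          le_trans (Finset.sum_le_sum_of_subset_of_nonneg (Finset.filter_subset _ _)
            (fun a _ _ => hDm0 a)) hsum'
        rw [e1, ← BK2_sqrt D hD]
        have hDi : 0 < D⁻¹ := inv_pos.mpr hD
        have e3 : C3 * D⁻¹ * (2 * Cη * ∑ a ∈ Finset.univ.filter (fun a => 𝒬 (A a).γ), Dm a) ≤
            C3 * D⁻¹ * (2 * Cη * (√(CD * C1) * √D)) := by gcongr
        have e4 : 0 ≤ ∑ a, (if 𝒬 (A a).γ then eta ((A a).g 0) ^ 2 else 0) := by
          apply Finset.sum_nonneg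
          intro a _
          split_ifs
          · positivity
          · exact le_rfl
        set SQ := ∑ a, (if 𝒬 (A a).γ then eta ((A a).g 0) ^ 2 else 0) with hSQ
        have e5 : 0 ≤ 2 * Cη * √(CD * C1) * (C3 * D⁻¹ * SQ) := by positivity
        have e6 : 0 ≤ C3 * (D⁻¹ * √D) := by positivity
        nlinarith

end Pool.Agent.P2
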