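import Pool.Agent.helper83.P2.SpecS0

set_option autoImplicit false

namespace Pool.Agent.P2

open Metric Filter Topology MeasureTheory
open Pool.Agent.helper37.QA

noncomputable section

theorem SUL_lim {m : ℕ} (e : Ultrafilter ℕ) (v : ℕ → (Fin m → ℂ)) (B : ℝ)
    (hv : ∀ n, ‖v n‖ ≤ B) : ∃ x : Fin m → ℂ, Tendsto v e (𝓝 x) := by
  have hc : IsCompact (closedBall (0 : Fin m → ℂ) B) := isCompact_closedBall _ _
  have h1 : ((e.map v : Ultrafilter (Fin m → ℂ)) : Filter (Fin m → ℂ)) ≤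
      𝓟 (closedBall (0 : Fin m → ℂ) B) := by
    rw [le_principal_iff, Ultrafilter.coe_map, mem_map]
    apply Filter.univ_mem'
    intro n
    simp only [Set.mem_preimage, mem_closedBall, dist_zero_right]
    exact hv n
  obtain ⟨x, _, hx⟩ := hc.ultrafilter_le_nhds (e.map v) h1
  exact ⟨x, by rw [Ultrafilter.coe_map] at hx; exact hx⟩

theorem SUL_maps {m : ℕ} (f : ℂ → (Fin m → ℂ)) (B : ℝ) (t0 : ℂ) (r : ℝ)
    (hr : 0 < r) (hb : ∀ t ∈ ball t0 r, ‖f t‖ ≤ B) :
    Set.MapsTo f (ball t0 r) (closedBall (f t0) (2 * B)) := by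
  intro t ht
  rw [mem_closedBall, dist_eq_norm]
  have h1 := hb t ht
  have h2 := hb t0 (mem_ball_self hr)
  have h3 := norm_sub_le (f t) (f t0)
  linarith

theorem SUL_second {m : ℕ} (f : ℂ → (Fin m → ℂ)) (B : ℝ) (t0 : ℂ) (r : ℝ)
    (hr : 0 < r) (hf : DifferentiableOn ℂ f (ball t0 r)) (hb : ∀ t ∈ ball t0 r, ‖f t‖ ≤ B) :
    ‖deriv f t0‖ ≤ 2 * B / r ∧ ∀ t ∈ ball t0 r,
      ‖f t - f t0 - (t - t0) • deriv f t0‖ ≤ (2 * (2 * B / r) / r) * ‖t - t0‖ ^ 2 := by
  have hmaps := SUL_maps f B t0 r hr hb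
  have h1 : ∀ t ∈ ball t0 r, ‖dslope f t0 t‖ ≤ 2 * B / r := fun t ht =>
    Complex.norm_dslope_le_div_of_mapsTo_ball hf hmaps ht
  have hg : DifferentiableOn ℂ (dslope f t0) (ball t0 r) :=
    (Complex.differentiableOn_dslope (ball_mem_nhds t0 hr)).mpr hf
  have hmaps2 := SUL_maps (dslope f t0) (2 * B / r) t0 r hr h1
  refine ⟨?_, ?_⟩
  · have h2 := h1 t0 (mem_ball_self hr)
    rwa [dslope_same] at h2
  · intro t ht
    have h3 := Complex.dist_le_div_mul_dist_of_mapsTo_ball hg hmaps2 ht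
    have h4 : f t - f t0 - (t - t0) • deriv f t0 =
        (t - t0) • (dslope f t0 t - dslope f t0 t0) := by
      rw [smul_sub, sub_smul_dslope, dslope_same]
    rw [h4, norm_smul]
    rw [dist_eq_norm, dist_eq_norm] at h3
    calc ‖t - t0‖ * ‖dslope f t0 t - dslope f t0 t0‖
        ≤ ‖t - t0‖ * (2 * (2 * B / r) / r * ‖t - t0‖) :=
          mul_le_mul_of_nonneg_left h3 (norm_nonneg _)
      _ = (2 * (2 * B / r) / r) * ‖t - t0‖ ^ 2 := by ring

theorem SUL : SUL_stmt := by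
  intro m e h B hB hd hb
  have hex : ∀ t : ℂ, ∃ x : Fin m → ℂ, t ∈ ball (0 : ℂ) 1 → Tendsto (fun n => h n t) e (𝓝 x) := by
    intro t
    by_cases ht : t ∈ ball (0 : ℂ) 1
    · obtain ⟨x, hx⟩ := SUL_lim e (fun n => h n t) B (fun n => hb n t ht)
      exact ⟨x, fun _ => hx⟩
    · exact ⟨0, fun h1 => absurd h1 ht⟩
  choose R hR using hex
  refine ⟨R, ?_, hR, ?_⟩
  · intro t0 ht0
    have ht0' : ‖t0‖ < 1 := by simpa using ht0
    set r : ℝ := 1 - ‖t0‖ with hr
    have hr0 : 0 < r := by rw [hr]; linarith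
    have hsub : ball t0 r ⊆ ball (0 : ℂ) 1 := by
      intro t ht
      rw [mem_ball, dist_eq_norm] at ht
      rw [mem_ball, dist_zero_right]
      have h1 : ‖t‖ ≤ ‖t - t0‖ + ‖t0‖ := by
        have h2 := norm_add_le (t - t0) t0
        simpa using h2
      linarith
    have hsec := fun n => SUL_second (h n) B t0 r hr0 ((hd n).mono hsub)
      (fun t ht => hb n t (hsub ht))
    obtain ⟨A, hA⟩ := SUL_lim e (fun n => deriv (h n) t0) (2 * B / r) (fun n => (hsec n).1)
    have hlim : ∀ t ∈ ball t0 r, ‖R t - R t0 - (t - t0) • A‖ ≤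
        (2 * (2 * B / r) / r) * ‖t - t0‖ ^ 2 := by
      intro t ht
      have h1 : Tendsto (fun n => ‖h n t - h n t0 - (t - t0) • deriv (h n) t0‖) e
          (𝓝 ‖R t - R t0 - (t - t0) • A‖) :=
        (((hR t (hsub ht)).sub (hR t0 ht0)).sub (hA.const_smul (t - t0))).norm
      exact le_of_tendsto h1 (Eventually.of_forall fun n => (hsec n).2 t ht)
    have hO : (fun t => R t - R t0 - (t - t0) • A) =O[𝓝 t0] fun t => ‖t - t0‖ ^ 2 := by
      apply Asymptotics.IsBigO.of_bound (2 * (2 * B / r) / r)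
      filter_upwards [ball_mem_nhds t0 hr0] with t ht
      rw [Real.norm_of_nonneg (by positivity)]
      exact hlim t ht
    have hF : HasFDerivAt (fun t => R t - R t0 - (t - t0) • A) (0 : ℂ →L[ℂ] (Fin m → ℂ)) t0 :=
      hO.hasFDerivAt one_lt_two
    have hD : DifferentiableAt ℂ (fun t => (R t - R t0 - (t - t0) • A) + (R t0 + (t - t0) • A))
        t0 :=
      hF.differentiableAt.add ((differentiableAt_const _).add
        ((differentiableAt_id.sub_const t0).smul_const A))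
    have hEq : (fun t => (R t - R t0 - (t - t0) • A) + (R t0 + (t - t0) • A)) = R := by
      funext t
      abel
    rw [hEq] at hD
    exact hD.differentiableWithinAt
  · intro t ht
    have h0 : (0 : ℂ) ∈ ball (0 : ℂ) 1 := mem_ball_self one_pos
    have h1 : Tendsto (fun n => ‖h n t - h n 0‖) e (𝓝 ‖R t - R 0‖) :=
      ((hR t ht).sub (hR 0 h0)).norm
    refine le_of_tendsto h1 (Eventually.of_forall fun n => ?_)
    have h2 := Complex.dist_le_div_mul_dist_of_mapsTo_ball (hd n)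
      (SUL_maps (h n) B 0 1 one_pos (hb n)) ht
    rw [dist_eq_norm, dist_zero_right, div_one] at h2
    have h3 : 0 ≤ B * ‖t‖ := by positivity
    linarith

end

end Pool.Agent.P2
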